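import Pool.Agent.H15.LU.Targets

set_option autoImplicit false

namespace Pool.Agent.H59.LU.FIN

open Filter Topology Asymptotics Polynomial
open Pool.Agent.H15.LU

theorem fin_ (h1 : T_CVW) (h2 : T_CVT) (h3 : T_EVL) (h4 : T_LIM) (h5 : T_CTR) (h6 : T_SQR) :
    T_FIN := by
  intro c β γ Q R γ' hc hcn hQ hR hβ hγ hγ' hD
  have hW := h1 c Q R hc hQ hR
  have hP := h2 _ _ β γ 0 γ' hW hβ hγ
  have hPQ := h2 Q Q₀ β γ 0 γ' hQ hβ hγ
  have hy : Tendsto (fun n => - c n) atTop (𝓝 0) := by simpa using hc.neg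
  obtain ⟨L0, L1, L1', L2, L3⟩ := h4 γ' hγ'
  obtain ⟨e0, he0, he0'⟩ := h3 _ _ (fun n => - c n) 0 9 hP hy (fun n => hD n 0)
  obtain ⟨e1, he1, he1'⟩ := h3 _ _ (fun n => - c n) 1 6 hP hy (fun n => hD n 1)
  obtain ⟨e2, he2, he2'⟩ := h3 _ _ (fun n => - c n) 2 3 hP hy (fun n => hD n 2)
  obtain ⟨q2, hq2, hq2'⟩ := h3 _ _ (fun n => - c n) 2 0 hPQ hy (fun n => by simp)
  rw [L0] at he0
  rw [L1] at he1
  rw [L2] at he2
  rw [L3] at hq2
  have hS := fun n => h6 (c n) (Q n) (R n) (SS (β n) (γ n))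
  refine h5 (fun n => - c n)
    (fun n => ((taylor (SS (β n) (γ n)) (Q n)).coeff 0).eval (-(c n)))
    (fun n => ((taylor (SS (β n) (γ n)) (Q n)).coeff 1).eval (-(c n)))
    (fun n => ((taylor (SS (β n) (γ n)) (Q n)).coeff 2).eval (-(c n)))
    e0 e1 e2 (4 * γ' ^ 3 - 4) L1' (fun n => neg_ne_zero.2 (hcn n)) he0 he1 he2 ?_ hy ?_ ?_ ?_
  · refine hq2.congr fun n => ?_
    rw [hq2' n, pow_zero, one_mul]
  · intro n
    rw [← he0' n]
    exact (hS n).1.symm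
  · intro n
    rw [← he1' n]
    exact (hS n).2.1.symm
  · intro n
    rw [← he2' n]
    exact (hS n).2.2.symm

end Pool.Agent.H59.LU.FIN
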