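import Pool.Agent.H15.LU.Targets

set_option autoImplicit false

namespace Pool.Agent.H59.LU.TAY

open Filter Topology Asymptotics Polynomial
open Pool.Agent.H15.LU

theorem pf_sum {ι : Type*} [Fintype ι] (T : ι → E9 → ℂ) (p : Fin 3 → ℂ) :
    pf (∑ k, T k) p = ∑ k, pf (T k) p := by
  unfold pf
  rw [Finset.sum_comm]
  refine Finset.sum_congr rfl fun e _ => ?_
  rw [Finset.sum_apply, Finset.sum_mul]

theorem tay (h1 : T_TYA) : T_TAY := by
  intro m F hF
  obtain ⟨P, r, hP⟩ := hF
  choose L hLc hL using h1 m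
  have hk : ∀ k : Fin 10, (k : ℕ) ≤ 9 := fun k => by omega
  refine ⟨fun t => ∑ k : Fin 10, L k (hk k) (P.changeOrigin ((0 : Fin 3 → ℂ), t) k), ?_, ?_⟩
  · intro e
    have h0 : (fun t : Fin m → ℂ => (((0 : Fin 3 → ℂ), t) : (Fin 3 → ℂ) × (Fin m → ℂ))) 0 = 0 :=
      rfl
    have key : ContinuousAt (fun t : Fin m → ℂ =>
        (∑ k : Fin 10, L k (hk k) (P.changeOrigin ((0 : Fin 3 → ℂ), t) k)) e) 0 := by
      have h2 : ContinuousAt (fun t : Fin m → ℂ =>
          (∑ k : Fin 10, L k (hk k) (P.changeOrigin ((0 : Fin 3 → ℂ), t) k))) 0 := by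
        apply tendsto_finsetSum
        intro k _
        have c1 : ContinuousAt (fun x => P.changeOrigin x (k : ℕ)) 0 :=
          (P.hasFPowerSeriesOnBall_changeOrigin (k : ℕ)
            (hP.r_pos.trans_le hP.r_le)).hasFPowerSeriesAt.continuousAt
        have c2 : ContinuousAt (fun t : Fin m → ℂ =>
            (((0 : Fin 3 → ℂ), t) : (Fin 3 → ℂ) × (Fin m → ℂ))) 0 := by fun_prop
        have c3 : ContinuousAt (fun t : Fin m → ℂ =>
            P.changeOrigin (((0 : Fin 3 → ℂ), t) : (Fin 3 → ℂ) × (Fin m → ℂ)) (k : ℕ)) 0 :=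
          ContinuousAt.comp (f := fun t : Fin m → ℂ =>
            (((0 : Fin 3 → ℂ), t) : (Fin 3 → ℂ) × (Fin m → ℂ))) (x := 0)
            (g := fun x => P.changeOrigin x (k : ℕ)) c1 c2
        exact ((hLc k (hk k)).continuousAt).comp c3
      exact (continuous_apply e).continuousAt.comp h2
    exact key
  · have hball : ∀ᶠ t : Fin m → ℂ in 𝓝 0,
        ((‖(((0 : Fin 3 → ℂ), t) : (Fin 3 → ℂ) × (Fin m → ℂ))‖₊ : NNReal) : ENNReal) < r := by
      have h2 : Continuous (fun t : Fin m → ℂ =>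
          ((‖(((0 : Fin 3 → ℂ), t) : (Fin 3 → ℂ) × (Fin m → ℂ))‖₊ : NNReal) : ENNReal)) := by
        apply ENNReal.continuous_coe.comp
        apply continuous_nnnorm.comp
        fun_prop
      have h3 : ((‖(((0 : Fin 3 → ℂ), (0 : Fin m → ℂ)) : (Fin 3 → ℂ) × (Fin m → ℂ))‖₊ : NNReal) :
          ENNReal) < r := by
        have : (((0 : Fin 3 → ℂ), (0 : Fin m → ℂ)) : (Fin 3 → ℂ) × (Fin m → ℂ)) = 0 := rfl
        rw [this, nnnorm_zero]
        exact hP.r_pos
      exact (h2.tendsto 0).eventually_lt_const h3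
    filter_upwards [hball] with t ht
    have hf := (hP.changeOrigin ht).hasFPowerSeriesAt.isBigO_sub_partialSum_pow 10
    have hc : Tendsto (fun p : Fin 3 → ℂ => ((p, (0 : Fin m → ℂ)) : (Fin 3 → ℂ) × (Fin m → ℂ)))
        (𝓝 0) (𝓝 0) := by
      have : Continuous (fun p : Fin 3 → ℂ =>
        ((p, (0 : Fin m → ℂ)) : (Fin 3 → ℂ) × (Fin m → ℂ))) := by fun_prop
      exact this.tendsto 0
    have h4 := hf.comp_tendsto hc
    refine (h4.congr_left fun p => ?_).trans (Asymptotics.IsBigO.of_bound 1 ?_)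
    · simp only [Function.comp]
      congr 1
      · congr 1
        simp
      · rw [pf_sum]
        unfold FormalMultilinearSeries.partialSum
        rw [Finset.sum_range]
        refine Finset.sum_congr rfl fun k _ => ?_
        rw [← hL k (hk k)]
    · refine Filter.Eventually.of_forall fun p => ?_
      simp only [Function.comp]
      rw [one_mul, norm_pow, norm_pow, norm_norm, norm_norm]
      apply pow_le_pow_left₀ (norm_nonneg _)
      rw [Prod.norm_def]
      simp

end Pool.Agent.H59.LU.TAY
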