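import Pool.Agent.H15.LU.Targets

set_option autoImplicit false

namespace Pool.Agent.H59.LU.CVW

open Filter Topology Asymptotics Polynomial
open Pool.Agent.H15.LU

theorem conv_const (V : ℂ[X][X]) : Conv (fun _ => V) V := by
  refine ⟨⟨max V.natDegree (V.support.sup (fun i => (V.coeff i).natDegree)), ?_⟩,
    fun i j => tendsto_const_nhds⟩
  rintro _ i j (h | h)
  · have : V.coeff i = 0 := coeff_eq_zero_of_natDegree_lt (lt_of_le_of_lt (le_max_left _ _) h)
    simp [this]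
  · by_cases hi : V.coeff i = 0
    · simp [hi]
    · apply coeff_eq_zero_of_natDegree_lt
      refine lt_of_le_of_lt ?_ h
      refine le_trans ?_ (le_max_right _ _)
      exact Finset.le_sup (f := fun i => (V.coeff i).natDegree) (mem_support_iff.2 hi)

theorem conv_add {W V : ℕ → ℂ[X][X]} {W' V' : ℂ[X][X]} (hW : Conv W W') (hV : Conv V V') :
    Conv (fun n => W n + V n) (W' + V') := by
  obtain ⟨⟨D1, h1⟩, h2⟩ := hW
  obtain ⟨⟨D2, g1⟩, g2⟩ := hV
  refine ⟨⟨max D1 D2, fun n i j h => ?_⟩, fun i j => ?_⟩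
  · have e1 : D1 < i ∨ D1 < j := by rcases h with h | h <;> omega
    have e2 : D2 < i ∨ D2 < j := by rcases h with h | h <;> omega
    simp [h1 n i j e1, g1 n i j e2]
  · simpa using (h2 i j).add (g2 i j)

theorem conv_sub {W V : ℕ → ℂ[X][X]} {W' V' : ℂ[X][X]} (hW : Conv W W') (hV : Conv V V') :
    Conv (fun n => W n - V n) (W' - V') := by
  obtain ⟨⟨D1, h1⟩, h2⟩ := hW
  obtain ⟨⟨D2, g1⟩, g2⟩ := hV
  refine ⟨⟨max D1 D2, fun n i j h => ?_⟩, fun i j => ?_⟩
  · have e1 : D1 < i ∨ D1 < j := by rcases h with h | h <;> omega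
    have e2 : D2 < i ∨ D2 < j := by rcases h with h | h <;> omega
    simp [h1 n i j e1, g1 n i j e2]
  · simpa using (h2 i j).sub (g2 i j)

theorem coeff2_mul (W V : ℂ[X][X]) (i j : ℕ) :
    ((W * V).coeff i).coeff j = ∑ x ∈ Finset.HasAntidiagonal.antidiagonal i, ∑ y ∈ Finset.HasAntidiagonal.antidiagonal j,
      (W.coeff x.1).coeff y.1 * (V.coeff x.2).coeff y.2 := by
  rw [coeff_mul, finsetSum_coeff]
  refine Finset.sum_congr rfl fun x _ => ?_
  rw [coeff_mul]

theorem conv_mul {W V : ℕ → ℂ[X][X]} {W' V' : ℂ[X][X]} (hW : Conv W W') (hV : Conv V V') :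
    Conv (fun n => W n * V n) (W' * V') := by
  obtain ⟨⟨D1, h1⟩, h2⟩ := hW
  obtain ⟨⟨D2, g1⟩, g2⟩ := hV
  refine ⟨⟨D1 + D2, fun n i j h => ?_⟩, fun i j => ?_⟩
  · rw [coeff2_mul]
    refine Finset.sum_eq_zero fun x hx => Finset.sum_eq_zero fun y hy => ?_
    rw [Finset.HasAntidiagonal.mem_antidiagonal] at hx hy
    by_cases e1 : D1 < x.1 ∨ D1 < y.1
    · rw [h1 n _ _ e1, zero_mul]
    · have e2 : D2 < x.2 ∨ D2 < y.2 := by
        rcases h with h | h <;> omega
      rw [g1 n _ _ e2, mul_zero]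
  · simp only [coeff2_mul]
    exact tendsto_finsetSum _ fun x _ => tendsto_finsetSum _ fun y _ =>
      (h2 x.1 y.1).mul (g2 x.2 y.2)

theorem conv_CC {c : ℕ → ℂ} (hc : Tendsto c atTop (𝓝 0)) :
    Conv (fun n => C (C (c n))) (C (C 0)) := by
  refine ⟨⟨0, fun n i j h => ?_⟩, fun i j => ?_⟩
  · rw [coeff_C]
    split_ifs with hi
    · rw [coeff_C]
      split_ifs with hj
      · omega
      · rfl
    · simp
  · by_cases hi : i = 0
    · by_cases hj : j = 0
      · simp only [coeff_C, hi, hj, if_true]; exact hc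
      · simp only [coeff_C, hi, hj, if_true, if_false]; exact tendsto_const_nhds
    · simp only [coeff_C, hi, if_false]; exact tendsto_const_nhds

theorem cvw : T_CVW := by
  intro c Q R hc hQ hR
  have e : ∀ z : ℂ, (C (4 * (X + C z)) : ℂ[X][X]) = C (4 * X) + C (C 4) * C (C z) := by
    intro z
    rw [← C_mul, ← C_add, mul_add]
    rfl
  have h := conv_sub (conv_mul hQ hQ)
    (conv_mul (conv_add (conv_const (C (4 * X))) (conv_mul (conv_const (C (C 4))) (conv_CC hc))) hR)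
  have e1 : (fun n => ww (c n) (Q n) (R n)) =
      fun n => Q n * Q n - (C (4 * X) + C (C 4) * C (C (c n))) * R n := by
    funext n
    unfold ww
    rw [e, sq]
  have e2 : W₀ = Q₀ * Q₀ - (C (4 * X) + C (C 4) * C (C 0)) * R₀ := by
    unfold W₀ Q₀ R₀
    rw [C_0, C_0, mul_zero, add_zero, ← mul_assoc, ← C_mul]
    have : (4 * X * X ^ 5 : ℂ[X]) = 4 * X ^ 6 := by ring
    rw [this]
    ring
  rw [e1, e2]
  exact h

end Pool.Agent.H59.LU.CVW
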